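import Mathlib

/-!
# Irreducibility of `H(X ^ 2)`

If `H` is monic and irreducible over a field and `(-1) ^ deg H * H(0)` is not a square, then
`H(X ^ 2)` is irreducible (Capelli's lemma with the norm).
-/

set_option autoImplicit false

namespace Pool.Agent.CritCyc

open Polynomial IntermediateField

universe u

/-- If `H` is monic irreducible and `(-1) ^ deg H * H(0)` is not a square, then `H(X ^ 2)` is
irreducible. -/
theorem irreducible_comp_sq {K : Type u} [Field K] {H : K[X]} (hm : H.Monic)
    (hH : Irreducible H) (hns : ¬ IsSquare ((-1) ^ H.natDegree * H.coeff 0)) :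
    Irreducible (H.comp (X ^ 2)) := by
  refine Polynomial.irreducible_comp hm (monic_X_pow 2) hH ?_
  intro E _ _ x hx
  have hint : IsIntegral K x := by
    by_contra h
    rw [minpoly.eq_zero h] at hx
    exact hm.ne_zero hx.symm
  rw [Polynomial.map_pow, map_X]
  refine X_pow_sub_C_irreducible_of_prime Nat.prime_two fun b hb => hns ?_
  have hnorm : Algebra.norm K (AdjoinSimple.gen K x) = (-1) ^ H.natDegree * H.coeff 0 := by
    have h1 := Algebra.PowerBasis.norm_gen_eq_coeff_zero_minpoly (adjoin.powerBasis hint)
    rw [adjoin.powerBasis_gen, adjoin.powerBasis_dim, minpoly_gen, hx] at h1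
    exact h1
  rw [← hnorm, ← hb, map_pow]
  exact ⟨_, sq _⟩

end Pool.Agent.CritCyc
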