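import Pool.Agent.CritCyc.Cyc

/-!
# The integers `f ^ n (0) + 1` for `f = X ^ 2 + 1`: size and number of prime factors
-/

namespace Pool.Agent.CritCyc

open Finset

lemma cast_orb {K : Type*} [CommRing K] (n : ℕ) : ((orb (1 : ℤ) n : ℤ) : K) = orb (1 : K) n := by
  induction n with
  | zero => simp [orb]
  | succ n ih =>
    have h1 : orb (1 : ℤ) (n + 1) = orb (1 : ℤ) n ^ 2 + 1 := rfl
    have h2 : orb (1 : K) (n + 1) = orb (1 : K) n ^ 2 + 1 := rfl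
    rw [h1, h2]
    push_cast
    rw [ih]

lemma orb_nonneg (n : ℕ) : 0 ≤ orb (1 : ℤ) n := by
  cases n with
  | zero => exact le_rfl
  | succ n =>
    have h1 : orb (1 : ℤ) (n + 1) = orb (1 : ℤ) n ^ 2 + 1 := rfl
    rw [h1]; positivity

lemma orb_lt (n : ℕ) : orb (1 : ℤ) (n + 1) + 1 ≤ 2 ^ 2 ^ n := by
  induction n with
  | zero => decide
  | succ n ih =>
    have h1 : orb (1 : ℤ) (n + 1 + 1) = orb (1 : ℤ) (n + 1) ^ 2 + 1 := rfl
    have h2 : (2 : ℤ) ^ 2 ^ (n + 1) = (2 ^ 2 ^ n) ^ 2 := by rw [← pow_mul, pow_succ]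
    have h3 := orb_nonneg (n + 1)
    have h4 : (2 : ℤ) ≤ 2 ^ 2 ^ n := by
      calc (2 : ℤ) = 2 ^ 1 := by norm_num
        _ ≤ 2 ^ 2 ^ n := pow_le_pow_right₀ (by norm_num) Nat.one_le_two_pow
    rw [h1, h2]
    nlinarith

lemma le_of_dvd {p n : ℕ} (hn : 2 ≤ n) (h : (p : ℤ) ∣ orb (1 : ℤ) n + 1) :
    p ≤ 2 ^ 2 ^ (n - 1) := by
  obtain ⟨m, rfl⟩ : ∃ m, n = m + 1 := ⟨n - 1, by omega⟩
  have h1 := orb_nonneg (m + 1)
  have h2 := Int.le_of_dvd (by linarith) h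
  have h3 := h2.trans (orb_lt m)
  exact_mod_cast h3

/-- At most `2 ^ N` primes divide one of the `f ^ n (0) + 1`, `2 ≤ n ≤ N`. -/
theorem card_le (N : ℕ) (S : Finset ℕ) (hS : ∀ p ∈ S, p.Prime ∧
    ∃ n, 2 ≤ n ∧ n ≤ N ∧ (p : ℤ) ∣ orb (1 : ℤ) n + 1) : S.card ≤ 2 ^ N := by
  set M : ℕ := ∏ n ∈ Icc 2 N, (orb (1 : ℤ) n + 1).natAbs with hM
  have hpos : ∀ n, 0 < (orb (1 : ℤ) n + 1).natAbs := by
    intro n
    have := orb_nonneg n
    omega
  have hM0 : M ≠ 0 := Finset.prod_ne_zero_iff.2 fun n _ => (hpos n).ne'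
  have hsub : S ⊆ M.primeFactors := by
    intro p hp
    obtain ⟨h1, n, h2, h3, h4⟩ := hS p hp
    rw [Nat.mem_primeFactors]
    refine ⟨h1, ?_, hM0⟩
    have h5 : p ∣ (orb (1 : ℤ) n + 1).natAbs := Int.natCast_dvd.1 h4
    exact h5.trans (Finset.dvd_prod_of_mem _ (Finset.mem_Icc.2 ⟨h2, h3⟩))
  have h1 : 2 ^ M.primeFactors.card ≤ M := by
    calc 2 ^ M.primeFactors.card = ∏ _p ∈ M.primeFactors, 2 := by rw [Finset.prod_const]
      _ ≤ ∏ p ∈ M.primeFactors, p :=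
          Finset.prod_le_prod' fun p hp => (Nat.prime_of_mem_primeFactors hp).two_le
      _ ≤ M := Nat.le_of_dvd (Nat.pos_of_ne_zero hM0) (Nat.prod_primeFactors_dvd M)
  have h2 : M ≤ 2 ^ ∑ n ∈ Icc 2 N, 2 ^ (n - 1) := by
    rw [← Finset.prod_pow_eq_pow_sum]
    refine Finset.prod_le_prod' fun n hn => ?_
    obtain ⟨m, rfl⟩ : ∃ m, n = m + 1 := ⟨n - 1, by have := (Finset.mem_Icc.1 hn).1; omega⟩
    have h3 := orb_lt m
    have h4 := orb_nonneg (m + 1)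
    have h5 : ((orb (1 : ℤ) (m + 1) + 1).natAbs : ℤ) ≤ 2 ^ 2 ^ m := by
      rw [Int.natAbs_of_nonneg (by linarith)]
      exact h3
    exact_mod_cast h5
  have h3 : ∑ n ∈ Icc 2 N, 2 ^ (n - 1) ≤ 2 ^ N := by
    have h4 : ∀ N : ℕ, ∑ n ∈ range (N + 1), 2 ^ (n - 1) ≤ 2 ^ N := by
      intro N
      induction N with
      | zero => simp
      | succ N ih =>
        rw [Finset.sum_range_succ, pow_succ, Nat.add_sub_cancel]
        omega
    refine le_trans (Finset.sum_le_sum_of_subset ?_) (h4 N)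
    intro n hn
    rw [Finset.mem_Icc] at hn
    exact Finset.mem_range.2 (by omega)
  have h4 : 2 ^ M.primeFactors.card ≤ 2 ^ 2 ^ N :=
    h1.trans (h2.trans (Nat.pow_le_pow_right (by norm_num) h3))
  have h5 : M.primeFactors.card ≤ 2 ^ N := (Nat.pow_le_pow_iff_right (by norm_num)).1 h4
  exact (Finset.card_le_card hsub).trans h5

end Pool.Agent.CritCyc
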