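import Pool.Agent.CritCyc.Defs

/-!
# The critical orbit never meets a square if and only if it closes up through `-c`
-/

namespace Pool.Agent.CritCyc

variable {K : Type*} [Field K] [Fintype K]

lemma ringChar_ne_two (h : ¬ IsSquare (-1 : K)) : ringChar K ≠ 2 := by
  intro h2
  exact h (FiniteField.isSquare_of_char_two h2 _)

lemma isSquare_mul (h : ¬ IsSquare (-1 : K)) {x y : K} (hx : ¬ IsSquare x) (hy : ¬ IsSquare y) :
    IsSquare (x * y) := by
  classical
  have h2 := ringChar_ne_two h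
  have hx0 : x ≠ 0 := by rintro rfl; exact hx IsSquare.zero
  have hy0 : y ≠ 0 := by rintro rfl; exact hy IsSquare.zero
  rw [← quadraticChar_one_iff_isSquare (mul_ne_zero hx0 hy0), map_mul,
    (quadraticChar_neg_one_iff_not_isSquare).2 hx, (quadraticChar_neg_one_iff_not_isSquare).2 hy]
  norm_num

/-- Two nonsquares with the same square are equal, if `-1` is not a square. -/
lemma eq_of_sq_eq (h : ¬ IsSquare (-1 : K)) {x y : K} (hx : ¬ IsSquare x) (hy : ¬ IsSquare y)
    (hxy : x ^ 2 = y ^ 2) : x = y := by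
  rcases sq_eq_sq_iff_eq_or_eq_neg.1 hxy with h1 | h1
  · exact h1
  · exfalso
    obtain ⟨z, hz⟩ := isSquare_mul h hx hy
    have hy0 : y ≠ 0 := by rintro rfl; exact hy IsSquare.zero
    apply h
    refine ⟨z / y, ?_⟩
    field_simp
    rw [h1] at hz
    linear_combination hz

/-- If the orbit has no square from index `2` on, and `-c` is not a square, it meets `-c`. -/
theorem exists_neg (h : ¬ IsSquare (-1 : K)) {c : K} (hc : ¬ IsSquare (-c))
    (ho : ∀ n, 2 ≤ n → ¬ IsSquare (orb c n)) : ∃ n, 2 ≤ n ∧ orb c n = -c := by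
  classical
  have hex : ∃ i, 2 ≤ i ∧ ∃ j, i < j ∧ orb c j = orb c i := by
    obtain ⟨x, y, hxy, he⟩ := Finite.exists_ne_map_eq_of_infinite (fun n : ℕ => orb c (n + 2))
    rcases lt_or_gt_of_ne hxy with h1 | h1
    · exact ⟨x + 2, by omega, y + 2, by omega, he.symm⟩
    · exact ⟨y + 2, by omega, x + 2, by omega, he⟩
  obtain ⟨i, ⟨hi2, j, hij, he⟩, hmin⟩ : ∃ i, (2 ≤ i ∧ ∃ j, i < j ∧ orb c j = orb c i) ∧
      ∀ m, m < i → ¬ (2 ≤ m ∧ ∃ j, m < j ∧ orb c j = orb c m) :=
    ⟨Nat.find hex, Nat.find_spec hex, fun m hm => Nat.find_min hex hm⟩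
  obtain ⟨i', rfl⟩ : ∃ i', i = i' + 1 := ⟨i - 1, by omega⟩
  obtain ⟨j', rfl⟩ : ∃ j', j = j' + 1 := ⟨j - 1, by omega⟩
  have hsq : orb c j' ^ 2 = orb c i' ^ 2 := by
    have : orb c j' ^ 2 + c = orb c i' ^ 2 + c := he
    exact add_right_cancel this
  by_cases h2 : 2 ≤ i'
  · exfalso
    have h3 := eq_of_sq_eq h (ho j' (by omega)) (ho i' h2) hsq
    exact hmin i' (by omega) ⟨h2, j', by omega, h3⟩
  · have h3 : i' = 1 := by omega
    have h4 : orb c 1 = c := by simp [orb]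
    rw [h3, h4] at hsq
    refine ⟨j', by omega, ?_⟩
    exact eq_of_sq_eq h (ho j' (by omega)) hc (by rw [hsq, neg_sq])

omit [Fintype K] in
/-- If the orbit meets `-c` at `n ≥ 2` and has no square up to there, it never has one. -/
theorem forall_of_exists {c : K} {n : ℕ} (hn : 2 ≤ n) (hnc : orb c n = -c)
    (ho : ∀ j, 2 ≤ j → j ≤ n → ¬ IsSquare (orb c j)) (m : ℕ) (hm : 2 ≤ m) :
    ¬ IsSquare (orb c m) := by
  have hper : ∀ k, orb c (n + 1 + k) = orb c (2 + k) := by
    intro k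
    induction k with
    | zero =>
      have h1 : orb c (n + 1) = orb c n ^ 2 + c := rfl
      have h2 : orb c 2 = (0 ^ 2 + c) ^ 2 + c := rfl
      rw [add_zero, add_zero, h1, h2, hnc]
      ring
    | succ k ih =>
      have h1 : orb c (n + 1 + (k + 1)) = orb c (n + 1 + k) ^ 2 + c := rfl
      have h2 : orb c (2 + (k + 1)) = orb c (2 + k) ^ 2 + c := rfl
      rw [h1, h2, ih]
  induction m using Nat.strong_induction_on with
  | _ m ih =>
    by_cases hmn : m ≤ n
    · exact ho m hm hmn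
    · obtain ⟨k, rfl⟩ : ∃ k, m = n + 1 + k := ⟨m - (n + 1), by omega⟩
      rw [hper]
      exact ih (2 + k) (by omega) (by omega)

/-- The critical orbit criterion: never a square iff the orbit closes up through `-c`. -/
theorem orbit_iff (h : ¬ IsSquare (-1 : K)) (c : K) :
    (¬ IsSquare (-c) ∧ ∀ n, 2 ≤ n → ¬ IsSquare (orb c n)) ↔
      ∃ n, 2 ≤ n ∧ orb c n = -c ∧ ∀ j, 2 ≤ j → j ≤ n → ¬ IsSquare (orb c j) := by
  constructor
  · rintro ⟨hc, ho⟩
    obtain ⟨n, hn, hnc⟩ := exists_neg h hc ho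
    exact ⟨n, hn, hnc, fun j hj _ => ho j hj⟩
  · rintro ⟨n, hn, hnc, ho⟩
    exact ⟨by rw [← hnc]; exact ho n hn le_rfl, forall_of_exists hn hnc ho⟩

end Pool.Agent.CritCyc
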