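import Mathlib

/-!
# The iterates of `X ^ 2 + c` and the orbit of `0`
-/

namespace Pool.Agent.CritCyc

open Polynomial

/-- The `n`-th compositional iterate of `X ^ 2 + c`. -/
noncomputable def It (K : Type*) [CommRing K] (c : K) (n : ℕ) : K[X] :=
  (fun g : K[X] => (X ^ 2 + C c).comp g)^[n] X

/-- The orbit of the critical point: `orb c n = f ^ n (0)` for `f = X ^ 2 + c`. -/
def orb {K : Type*} [CommRing K] (c : K) : ℕ → K
  | 0 => 0
  | n + 1 => orb c n ^ 2 + c

end Pool.Agent.CritCyc
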