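import Pool.Agent.CritCyc.Defs
import Pool.Agent.CritCyc.Capelli
import Pool.Agent.StableX.Alg

/-!
# Irreducibility of the iterates of `X ^ 2 + c` over a finite field of odd characteristic

The `N`-th iterate is irreducible iff `-c` and `f ^ n (0)`, `2 ≤ n ≤ N`, are nonsquares.
-/

set_option autoImplicit false

namespace Pool.Agent.CritCyc

open Polynomial

universe u

section basic

variable {K : Type u} [Field K]

lemma It_zero (c : K) : It K c 0 = X := rfl

lemma It_succ' (c : K) (n : ℕ) : It K c (n + 1) = (X ^ 2 + C c).comp (It K c n) := by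
  unfold It
  rw [Function.iterate_succ_apply']

lemma It_succ (c : K) (n : ℕ) : It K c (n + 1) = (It K c n).comp (X ^ 2 + C c) := by
  induction n with
  | zero => rw [It_succ', It_zero, comp_X, X_comp]
  | succ n ih => rw [It_succ', ih, ← comp_assoc, ← It_succ', ih]

lemma eval_It (c : K) (n : ℕ) : (It K c n).eval c = orb c (n + 1) := by
  induction n with
  | zero => simp [It_zero, orb]
  | succ n ih =>
    rw [It_succ', eval_comp, ih]
    simp [orb]

lemma monic_It (c : K) (n : ℕ) : (It K c n).Monic ∧ (It K c n).natDegree = 2 ^ n := by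
  induction n with
  | zero => exact ⟨monic_X, by rw [It_zero, natDegree_X, pow_zero]⟩
  | succ n ih =>
    have h1 : (X ^ 2 + C c : K[X]).Monic := monic_X_pow_add_C c two_ne_zero
    have h2 : (X ^ 2 + C c : K[X]).natDegree = 2 := natDegree_X_pow_add_C
    rw [It_succ]
    refine ⟨ih.1.comp h1 (by rw [h2]; norm_num), ?_⟩
    rw [natDegree_comp, h2, ih.2, pow_succ]

/-- `It (n + 1) = (It n)(X + c) ∘ X ^ 2`. -/
lemma It_succ_taylor (c : K) (n : ℕ) :
    It K c (n + 1) = (taylor c (It K c n)).comp (X ^ 2) := by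
  rw [taylor_apply, comp_assoc, It_succ]
  simp

lemma coeff_taylor (c : K) (n : ℕ) : (taylor c (It K c n)).coeff 0 = orb c (n + 1) := by
  rw [taylor_coeff_zero, eval_It]

lemma taylor_props (c : K) (n : ℕ) :
    (taylor c (It K c n)).Monic ∧ (taylor c (It K c n)).natDegree = 2 ^ n := by
  refine ⟨?_, by rw [natDegree_taylor, (monic_It c n).2]⟩
  rw [taylor_apply]
  exact (monic_It c n).1.comp_X_add_C c

lemma irr_taylor (c : K) (n : ℕ) :
    Irreducible (taylor c (It K c n)) ↔ Irreducible (It K c n) := by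
  have : taylor c (It K c n) = taylorEquiv c (It K c n) := rfl
  rw [this]
  exact MulEquiv.irreducible_iff (taylorEquiv c)

lemma irr_mono {c : K} {m N : ℕ} (h : Irreducible (It K c N)) (hm : m ≤ N) :
    Irreducible (It K c m) := by
  obtain ⟨k, rfl⟩ : ∃ k, N = m + k := ⟨N - m, by omega⟩
  clear hm
  induction k with
  | zero => exact h
  | succ k ih =>
    apply ih
    rw [← add_assoc, It_succ] at h
    refine StableX.irreducible_of_comp ?_ h
    rw [natDegree_X_pow_add_C]
    norm_num

/-- If `-c` and `f ^ n (0)`, `2 ≤ n ≤ N`, are nonsquares then the `N`-th iterate is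
irreducible. -/
theorem irreducible_of_nonsquares {c : K} {N : ℕ} (h1 : ¬ IsSquare (-c))
    (h : ∀ n, 2 ≤ n → n ≤ N → ¬ IsSquare (orb c n)) : Irreducible (It K c N) := by
  induction N with
  | zero => exact irreducible_X
  | succ n ih =>
    rw [It_succ_taylor]
    refine irreducible_comp_sq (taylor_props c n).1
      ((irr_taylor c n).2 (ih fun k hk hkn => h k hk (by omega))) ?_
    rw [(taylor_props c n).2, coeff_taylor]
    rcases Nat.eq_zero_or_pos n with rfl | hn
    · simpa [orb] using h1
    · rw [(Nat.even_pow.2 ⟨even_two, by omega⟩ : Even (2 ^ n)).neg_one_pow, one_mul]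
      exact h (n + 1) (by omega) le_rfl

end basic

/-- **The Jones-Boston criterion for `X ^ 2 + c`.** -/
theorem irr_iff {K : Type u} [Field K] [Fintype K] (hK : ringChar K ≠ 2) (c : K) (N : ℕ)
    (hN : 1 ≤ N) : Irreducible (It K c N) ↔
      ¬ IsSquare (-c) ∧ ∀ n, 2 ≤ n → n ≤ N → ¬ IsSquare (orb c n) := by
  refine ⟨fun h => ?_, fun h => irreducible_of_nonsquares h.1 h.2⟩
  have key : ∀ n, n + 1 ≤ N → ¬ IsSquare ((-1) ^ (2 ^ n) * orb c (n + 1)) := by
    intro n hn
    have h1 := StableX.not_isSquare_of_irreducible hK (taylor_props c n).1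
      ((irr_taylor c n).2 (irr_mono h (by omega)))
      (by rw [← It_succ_taylor]; exact irr_mono h hn)
    rwa [(taylor_props c n).2, coeff_taylor] at h1
  refine ⟨by simpa [orb] using key 0 hN, fun n hn hnN => ?_⟩
  obtain ⟨m, rfl⟩ : ∃ m, n = m + 1 := ⟨n - 1, by omega⟩
  have h1 := key m hnN
  rwa [(Nat.even_pow.2 ⟨even_two, by omega⟩ : Even (2 ^ m)).neg_one_pow, one_mul] at h1

end Pool.Agent.CritCyc
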