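import Pool.Agent.CritCyc.Cyc
import Pool.Agent.CritCyc.Irr

/-!
# The critical cycle: stability over finite fields with `q ≡ 3 (mod 4)` elements, and Q1
-/

set_option autoImplicit false

namespace Pool.Agent.CritCyc

open Polynomial

universe u

/-- Over a field with `q ≡ 3 (mod 4)` elements all iterates of `X ^ 2 + c` are irreducible iff the
orbit of `0` reaches `-c` at some time `n ≥ 2` with no square among `f ^ 2 (0), ..., f ^ n (0)`. -/
theorem stable_iff {K : Type u} [Field K] [Fintype K] (hq : Fintype.card K % 4 = 3) (c : K) :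
    (∀ N, 1 ≤ N → Irreducible (It K c N)) ↔
      ∃ n, 2 ≤ n ∧ orb c n = -c ∧ ∀ j, 2 ≤ j → j ≤ n → ¬ IsSquare (orb c j) := by
  have h1 : ¬ IsSquare (-1 : K) := by
    rw [FiniteField.isSquare_neg_one_iff]
    simpa using hq
  rw [← orbit_iff h1 c]
  constructor
  · intro h
    exact ⟨((irr_iff (ringChar_ne_two h1) c 1 le_rfl).1 (h 1 le_rfl)).1, fun n hn =>
      ((irr_iff (ringChar_ne_two h1) c n (by omega)).1 (h n (by omega))).2 n hn le_rfl⟩
  · rintro ⟨h2, h3⟩ N hN
    exact (irr_iff (ringChar_ne_two h1) c N hN).2 ⟨h2, fun n hn _ => h3 n hn⟩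

lemma orb_cast (p : ℕ) [Fact p.Prime] (n : ℕ) :
    orb (1 : ZMod p) n = ((StableX.a n : ℕ) : ZMod p) := by
  induction n with
  | zero => simp [orb, StableX.a_zero]
  | succ n ih => simp [orb, ih, StableX.a_succ]

lemma It_ZMod (p n : ℕ) [Fact p.Prime] : It (ZMod p) 1 n =
    (fun g : Polynomial (ZMod p) => (X ^ 2 + 1 : Polynomial (ZMod p)).comp g)^[n] X := by
  unfold It
  rw [C_1]

lemma orb_neg_one_iff (p n : ℕ) [Fact p.Prime] :
    orb (1 : ZMod p) n = -1 ↔ p ∣ StableX.a n + 1 := by
  rw [orb_cast, ← ZMod.natCast_eq_zero_iff, Nat.cast_add, Nat.cast_one, eq_neg_iff_add_eq_zero]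

/-- `X ^ 2 + 1` is stable modulo the prime `p` iff `p ≡ 3 (mod 4)` and, for some `n ≥ 2`, `p`
divides `a n + 1` and none of `a 2, ..., a n` is a square modulo `p`; here `a` is `StableX.a`: `a 0 = 0`, `a (n + 1) = a n ^ 2 + 1`. -/
theorem stable_zmod_iff (p : ℕ) (hp : p.Prime) :
    (∀ n : ℕ, 1 ≤ n →
      Irreducible ((fun g : Polynomial (ZMod p) => (X ^ 2 + 1 : Polynomial (ZMod p)).comp g)^[n] X))
      ↔ ∃ n, 2 ≤ n ∧ p ∣ StableX.a n + 1 ∧
        ∀ k, 2 ≤ k → k ≤ n → ¬ IsSquare ((StableX.a k : ℕ) : ZMod p) := by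
  have := Fact.mk hp
  have hcard : Fintype.card (ZMod p) = p := ZMod.card p
  by_cases h3 : p % 4 = 3
  · have h := stable_iff (K := ZMod p) (by rw [hcard]; exact h3) 1
    simp only [It_ZMod, orb_neg_one_iff] at h
    rw [h]
    simp only [orb_cast]
  · have hsq : IsSquare (-1 : ZMod p) := by
      rw [FiniteField.isSquare_neg_one_iff, hcard]
      exact h3
    constructor
    · intro h
      exfalso
      have h1 : Irreducible (It (ZMod p) 1 1) := by rw [It_ZMod]; exact h 1 le_rfl
      obtain ⟨i, hi⟩ := hsq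
      have h2 : It (ZMod p) 1 1 = (X - C i) * (X + C i) := by
        rw [It_succ, It_zero, X_comp]
        have : (C (1 : ZMod p) : (ZMod p)[X]) = - (C i * C i) := by
          rw [← C_mul, ← hi, C_neg, neg_neg]
        rw [this]
        ring
      rw [h2] at h1
      rcases h1.isUnit_or_isUnit rfl with h4 | h4
      · have := natDegree_eq_zero_of_isUnit h4
        rw [natDegree_X_sub_C] at this
        omega
      · have := natDegree_eq_zero_of_isUnit h4
        rw [natDegree_X_add_C] at this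
        omega
    · rintro ⟨n, hn, hpn, hns⟩
      exfalso
      apply hns n hn le_rfl
      rw [← orb_cast, (orb_neg_one_iff p n).2 hpn]
      exact hsq

/-- **The exact form of Q1.**  Q1 (literally as in the frozen statement) holds iff for every
`n ≥ 2` every prime factor `p ≠ 3` of `a n + 1` has a square among `a 2, ..., a n`. -/
theorem Q1_iff :
    (∀ p : ℕ, p.Prime →
      ((∀ n : ℕ, 1 ≤ n →
          Irreducible ((fun g : Polynomial (ZMod p) =>
            (X ^ 2 + 1 : Polynomial (ZMod p)).comp g)^[n] X)) ↔ p = 3)) ↔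
      ∀ n, 2 ≤ n → ∀ p : ℕ, p.Prime → p ∣ StableX.a n + 1 → p ≠ 3 →
        ∃ k, 2 ≤ k ∧ k ≤ n ∧ IsSquare ((StableX.a k : ℕ) : ZMod p) := by
  constructor
  · intro h n hn p hp hpn hp3
    by_contra hcon
    push Not at hcon
    exact hp3 ((h p hp).1 ((stable_zmod_iff p hp).2 ⟨n, hn, hpn, hcon⟩))
  · intro h p hp
    rw [stable_zmod_iff p hp]
    constructor
    · rintro ⟨n, hn, hpn, hns⟩
      by_contra hp3
      obtain ⟨k, hk, hkn, hs⟩ := h n hn p hp hpn hp3
      exact hns k hk hkn hs
    · rintro rfl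
      refine ⟨2, le_rfl, by decide, fun k hk hk2 => ?_⟩
      have : k = 2 := by omega
      subst this
      intro hs
      have h2 : ((StableX.a 2 : ℕ) : ZMod 3) = 2 := by decide
      rw [h2] at hs
      revert hs
      decide

end Pool.Agent.CritCyc
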