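import Pool.Agent.CritCyc.Irr
import Pool.Agent.CritCyc.Cnt

/-!
# Stability of `X ^ 2 + c` is a closed critical cycle of nonsquares
-/

namespace Pool.Agent.CritCyc

open Polynomial

/-- For a finite field `K` with `|K| ≡ 3 mod 4`: `X ^ 2 + c` is stable iff the critical orbit
meets `-c` at some `n ≥ 2` and has no square from index `2` to `n`. -/
theorem field_iff {K : Type*} [Field K] [Fintype K] (hq : Fintype.card K % 4 = 3) (c : K) :
    (∀ n, 1 ≤ n → Irreducible (It K c n)) ↔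
      ∃ n, 2 ≤ n ∧ orb c n = -c ∧ ∀ j, 2 ≤ j → j ≤ n → ¬ IsSquare (orb c j) := by
  have h : ¬ IsSquare (-1 : K) := by
    rw [FiniteField.isSquare_neg_one_iff]
    exact fun h => h hq
  have h2 := ringChar_ne_two h
  rw [← orbit_iff h c]
  constructor
  · intro hs
    exact ⟨((irr_iff h2 c 1 le_rfl).1 (hs 1 le_rfl)).1, fun n hn =>
      ((irr_iff h2 c n (by omega)).1 (hs n (by omega))).2 n hn le_rfl⟩
  · rintro ⟨hc, ho⟩ n hn
    exact (irr_iff h2 c n hn).2 ⟨hc, fun m hm _ => ho m hm⟩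

/-- Over the field with two elements `X ^ 2 + 1` is reducible. -/
lemma not_irreducible_two : ¬ Irreducible (It (ZMod 2) 1 1) := by
  have h1 : It (ZMod 2) 1 1 = (X + 1) * (X + 1) := by
    have h2 : It (ZMod 2) 1 1 = (X ^ 2 + C 1 : (ZMod 2)[X]).comp X := rfl
    rw [h2, comp_X, C_1]
    have h3 : (2 : (ZMod 2)[X]) = 0 := by
      have : (2 : ZMod 2) = 0 := rfl
      rw [← C_ofNat, this, C_0]
    linear_combination (-X : (ZMod 2)[X]) * h3
  rw [h1]
  intro h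
  rcases h.isUnit_or_isUnit rfl with h2 | h2 <;>
  · have h3 := natDegree_eq_zero_of_isUnit h2
    have h4 : (X + 1 : (ZMod 2)[X]).natDegree = 1 := by
      rw [← C_1]; exact natDegree_X_add_C 1
    omega

/-- `X ^ 2 + 1` is stable modulo the prime `p` iff `p ≡ 3 mod 8`, `p` divides some
`f ^ n (0) + 1` with `n ≥ 2` and `f ^ 2 (0), …, f ^ (n - 1) (0)` are nonresidues modulo `p`. -/
theorem prime_iff {p : ℕ} (hp : p.Prime) : (∀ n, 1 ≤ n → Irreducible (It (ZMod p) 1 n)) ↔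
    p % 8 = 3 ∧ ∃ n, 2 ≤ n ∧ (p : ℤ) ∣ orb (1 : ℤ) n + 1 ∧
      ∀ j, 2 ≤ j → j < n → ¬ IsSquare ((orb (1 : ℤ) j : ℤ) : ZMod p) := by
  have : Fact p.Prime := ⟨hp⟩
  have hdvd : ∀ n, (p : ℤ) ∣ orb (1 : ℤ) n + 1 ↔ orb (1 : ZMod p) n = -1 := by
    intro n
    rw [← ZMod.intCast_zmod_eq_zero_iff_dvd, ← cast_orb (K := ZMod p)]
    push_cast
    exact add_eq_zero_iff_eq_neg
  constructor
  · intro hs
    have hp2 : p ≠ 2 := by
      rintro rfl
      exact not_irreducible_two (hs 1 le_rfl)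
    have hK : ringChar (ZMod p) ≠ 2 := by
      rw [ZMod.ringChar_zmod_n]; exact hp2
    have hm1 : ¬ IsSquare (-1 : ZMod p) := ((irr_iff hK 1 1 le_rfl).1 (hs 1 le_rfl)).1
    have h4 : p % 4 = 3 := by
      by_contra hcon
      exact hm1 (ZMod.exists_sq_eq_neg_one_iff.2 hcon)
    have ho : ∀ n, 2 ≤ n → ¬ IsSquare (orb (1 : ZMod p) n) := fun n hn =>
      ((irr_iff hK 1 n (by omega)).1 (hs n (by omega))).2 n hn le_rfl
    have h2 : ¬ IsSquare (2 : ZMod p) := by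
      have e : orb (1 : ZMod p) 2 = 2 := by norm_num [orb]
      rw [← e]; exact ho 2 le_rfl
    have h8 : p % 8 = 3 := by
      have h5 : ¬ (p % 8 = 1 ∨ p % 8 = 7) := fun h => h2 ((ZMod.exists_sq_eq_two_iff hp2).2 h)
      omega
    obtain ⟨n, hn, hn1⟩ := exists_neg hm1 hm1 ho
    exact ⟨h8, n, hn, (hdvd n).2 hn1, fun j hj _ => by rw [cast_orb]; exact ho j hj⟩
  · rintro ⟨h8, n, hn, hd, ho⟩
    have h4 : Fintype.card (ZMod p) % 4 = 3 := by
      rw [ZMod.card]; omega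
    refine (field_iff h4 1).2 ⟨n, hn, (hdvd n).1 hd, fun j hj hjn => ?_⟩
    rcases lt_or_eq_of_le hjn with h1 | h1
    · have := ho j hj h1
      rwa [cast_orb] at this
    · rw [h1, (hdvd n).1 hd, FiniteField.isSquare_neg_one_iff]
      exact fun h => h h4

/-- The question in terms of the prime factors of the numbers `f ^ n (0) + 1`. -/
theorem question_iff :
    (∀ p : ℕ, p.Prime → ((∀ n, 1 ≤ n → Irreducible (It (ZMod p) 1 n)) ↔ p = 3)) ↔
      ∀ n p : ℕ, 2 ≤ n → p.Prime → p ≠ 3 → (p : ℤ) ∣ orb (1 : ℤ) n + 1 → p % 8 = 3 →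
        ∃ j, 2 ≤ j ∧ j < n ∧ IsSquare ((orb (1 : ℤ) j : ℤ) : ZMod p) := by
  constructor
  · intro h n p hn hp hp3 hd h8
    by_contra hcon
    push Not at hcon
    exact hp3 ((h p hp).1 ((prime_iff hp).2 ⟨h8, n, hn, hd, fun j hj hjn => hcon j hj hjn⟩))
  · intro h p hp
    constructor
    · intro hs
      by_contra hp3
      obtain ⟨h8, n, hn, hd, ho⟩ := (prime_iff hp).1 hs
      obtain ⟨j, hj, hjn, hsq⟩ := h n p hn hp hp3 hd h8
      exact ho j hj hjn hsq
    · rintro rfl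
      refine (prime_iff hp).2 ⟨by norm_num, 2, le_rfl, ?_, fun j hj hjn => by omega⟩
      decide

end Pool.Agent.CritCyc
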