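import Pool.Agent.CritCyc.Fin

/-!
# The length of the cycle of a stable prime
-/

namespace Pool.Agent.CritCyc

open Polynomial

lemma orb_iter {K : Type*} [CommRing K] (n : ℕ) :
    orb (1 : K) (n + 2) = (fun x : K => x ^ 2 + 1)^[n] 2 := by
  induction n with
  | zero =>
    have h : orb (1 : K) (0 + 2) = ((0 : K) ^ 2 + 1) ^ 2 + 1 := rfl
    rw [h, Function.iterate_zero_apply]
    ring
  | succ n ih =>
    have h : orb (1 : K) (n + 1 + 2) = orb (1 : K) (n + 2) ^ 2 + 1 := rfl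
    rw [h, ih, Function.iterate_succ_apply']

/-- For a stable prime `p` the point `2` lies on a cycle of `x ↦ x ^ 2 + 1` modulo `p`; if `L` is
its length, then `p` divides `f ^ (L + 1) (0) + 1`. -/
theorem stable_period {p : ℕ} (hp : p.Prime)
    (hs : ∀ n, 1 ≤ n → Irreducible (It (ZMod p) 1 n)) :
    0 < Function.minimalPeriod (fun x : ZMod p => x ^ 2 + 1) 2 ∧
      (p : ℤ) ∣ orb (1 : ℤ) (Function.minimalPeriod (fun x : ZMod p => x ^ 2 + 1) 2 + 1) + 1 := by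
  have : Fact p.Prime := ⟨hp⟩
  obtain ⟨h8, n, hn, hd, -⟩ := (prime_iff hp).1 hs
  have hq : Fintype.card (ZMod p) % 4 = 3 := by
    rw [ZMod.card]; omega
  obtain ⟨k, hk, hk1, hk2⟩ := (field_iff hq 1).1 hs
  have hall := forall_of_exists hk hk1 hk2
  have hpos : 0 < Function.minimalPeriod (fun x : ZMod p => x ^ 2 + 1) 2 := by
    refine Function.IsPeriodicPt.minimalPeriod_pos (n := k - 1) (by omega) ?_
    obtain ⟨m, rfl⟩ : ∃ m, k = m + 1 := ⟨k - 1, by omega⟩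
    rw [Nat.add_sub_cancel]
    have h1 : orb (1 : ZMod p) (m + 2) = orb (1 : ZMod p) (m + 1) ^ 2 + 1 := rfl
    rw [orb_iter, hk1] at h1
    have h2 : (fun x : ZMod p => x ^ 2 + 1)^[m] 2 = 2 := by rw [h1]; ring
    exact h2
  refine ⟨hpos, ?_⟩
  have hper := Function.isPeriodicPt_minimalPeriod (fun x : ZMod p => x ^ 2 + 1) 2
  set L := Function.minimalPeriod (fun x : ZMod p => x ^ 2 + 1) 2 with hL
  have h1 : (fun x : ZMod p => x ^ 2 + 1)^[L] 2 = 2 := hper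
  rw [← orb_iter] at h1
  have h2 : orb (1 : ZMod p) (L + 2) = orb (1 : ZMod p) (L + 1) ^ 2 + 1 := rfl
  have h3 : orb (1 : ZMod p) (L + 1) ^ 2 = 1 := by
    rw [h1] at h2
    linear_combination -h2
  have h4 : orb (1 : ZMod p) (L + 1) = -1 := by
    rcases sq_eq_one_iff.1 h3 with h | h
    · have h5 := hall (L + 1) (by omega)
      rw [h] at h5
      exact absurd IsSquare.one h5
    · exact h
  rw [← ZMod.intCast_zmod_eq_zero_iff_dvd]
  push_cast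
  rw [cast_orb (K := ZMod p), h4]
  ring

/-- The primes dividing one of the `f ^ n (0) + 1`, `2 ≤ n ≤ N`. -/
theorem ncard_dvd_le (N : ℕ) :
    {p : ℕ | p.Prime ∧ ∃ n, 2 ≤ n ∧ n ≤ N ∧ (p : ℤ) ∣ orb (1 : ℤ) n + 1}.Finite ∧
      {p : ℕ | p.Prime ∧ ∃ n, 2 ≤ n ∧ n ≤ N ∧ (p : ℤ) ∣ orb (1 : ℤ) n + 1}.ncard ≤ 2 ^ N := by
  have hfin : {p : ℕ | p.Prime ∧ ∃ n, 2 ≤ n ∧ n ≤ N ∧ (p : ℤ) ∣ orb (1 : ℤ) n + 1}.Finite := by
    refine (Set.finite_Iic (2 ^ 2 ^ N)).subset ?_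
    rintro p ⟨-, n, h1, h2, h3⟩
    exact (le_of_dvd h1 h3).trans
      (Nat.pow_le_pow_right (by norm_num) (Nat.pow_le_pow_right (by norm_num) (by omega)))
  refine ⟨hfin, ?_⟩
  rw [Set.ncard_eq_toFinset_card _ hfin]
  exact card_le N _ fun p hp => (hfin.mem_toFinset.1 hp)

/-- At most `2 ^ N` stable primes have a cycle of length `< N`. -/
theorem ncard_stable_le (N : ℕ) :
    {p : ℕ | p.Prime ∧ (∀ n, 1 ≤ n → Irreducible (It (ZMod p) 1 n)) ∧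
      Function.minimalPeriod (fun x : ZMod p => x ^ 2 + 1) 2 < N}.Finite ∧
    {p : ℕ | p.Prime ∧ (∀ n, 1 ≤ n → Irreducible (It (ZMod p) 1 n)) ∧
      Function.minimalPeriod (fun x : ZMod p => x ^ 2 + 1) 2 < N}.ncard ≤ 2 ^ N := by
  obtain ⟨h1, h2⟩ := ncard_dvd_le N
  have hsub : {p : ℕ | p.Prime ∧ (∀ n, 1 ≤ n → Irreducible (It (ZMod p) 1 n)) ∧
      Function.minimalPeriod (fun x : ZMod p => x ^ 2 + 1) 2 < N} ⊆
      {p : ℕ | p.Prime ∧ ∃ n, 2 ≤ n ∧ n ≤ N ∧ (p : ℤ) ∣ orb (1 : ℤ) n + 1} := by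
    rintro p ⟨hp, hs, hL⟩
    obtain ⟨h3, h4⟩ := stable_period hp hs
    exact ⟨hp, _, by omega, by omega, h4⟩
  exact ⟨h1.subset hsub, (Set.ncard_le_ncard hsub h1).trans h2⟩

/-- The number of stable primes with a cycle of length `< y` is at most `2 · 2 ^ y`. -/
theorem ncard_stable_le_real (y : ℝ) :
    ({p : ℕ | p.Prime ∧ (∀ n, 1 ≤ n → Irreducible (It (ZMod p) 1 n)) ∧
      (Function.minimalPeriod (fun x : ZMod p => x ^ 2 + 1) 2 : ℝ) < y}.ncard : ℝ) ≤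
      2 * 2 ^ y := by
  have hsub : {p : ℕ | p.Prime ∧ (∀ n, 1 ≤ n → Irreducible (It (ZMod p) 1 n)) ∧
      (Function.minimalPeriod (fun x : ZMod p => x ^ 2 + 1) 2 : ℝ) < y} ⊆
      {p : ℕ | p.Prime ∧ (∀ n, 1 ≤ n → Irreducible (It (ZMod p) 1 n)) ∧
      Function.minimalPeriod (fun x : ZMod p => x ^ 2 + 1) 2 < ⌈y⌉₊} := by
    rintro p ⟨hp, hs, hL⟩
    exact ⟨hp, hs, Nat.lt_ceil.2 hL⟩
  rcases le_or_gt y 0 with hy | hy
  · have he : {p : ℕ | p.Prime ∧ (∀ n, 1 ≤ n → Irreducible (It (ZMod p) 1 n)) ∧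
      (Function.minimalPeriod (fun x : ZMod p => x ^ 2 + 1) 2 : ℝ) < y} = ∅ := by
      rw [Set.eq_empty_iff_forall_notMem]
      rintro p ⟨-, -, hL⟩
      have : (0 : ℝ) ≤ (Function.minimalPeriod (fun x : ZMod p => x ^ 2 + 1) 2 : ℝ) :=
        Nat.cast_nonneg _
      linarith
    rw [he, Set.ncard_empty, Nat.cast_zero]
    positivity
  · obtain ⟨h1, h2⟩ := ncard_stable_le ⌈y⌉₊
    have h3 := (Set.ncard_le_ncard hsub h1).trans h2
    calc _ ≤ ((2 ^ ⌈y⌉₊ : ℕ) : ℝ) := by exact_mod_cast h3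
      _ = (2 : ℝ) ^ (⌈y⌉₊ : ℝ) := by rw [Real.rpow_natCast]; push_cast; rfl
      _ ≤ (2 : ℝ) ^ (y + 1) :=
          Real.rpow_le_rpow_of_exponent_le (by norm_num) (Nat.ceil_lt_add_one hy.le).le
      _ = 2 * 2 ^ y := by rw [Real.rpow_add (by norm_num), Real.rpow_one, mul_comm]

end Pool.Agent.CritCyc
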